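import Mathlib

set_option autoImplicit false

namespace Pool.Agent.Results.MP_812af1_co.Cex

open Matrix

def Butson (m : ℕ) {n : ℕ} (H : Matrix (Fin n) (Fin n) ℂ) : Prop :=
  (∀ i j, H i j ^ m = 1) ∧ H * Hᴴ = (n : ℂ) • (1 : Matrix (Fin n) (Fin n) ℂ)

def Equivalent (m : ℕ) {n : ℕ} (H K : Matrix (Fin n) (Fin n) ℂ) : Prop :=
  ∃ (σ τ : Equiv.Perm (Fin n)) (r c : Fin n → ℂ), (∀ i, r i ^ m = 1) ∧ (∀ j, c j ^ m = 1) ∧
    ∀ i j, K i j = r i * c j * H (σ i) (τ j)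

def Normalised {n : ℕ} (H : Matrix (Fin n) (Fin n) ℂ) : Prop :=
  ∀ i j : Fin n, i.val = 0 ∨ j.val = 0 → H i j = 1

def RowBalanced (m : ℕ) {n : ℕ} (H : Matrix (Fin n) (Fin n) ℂ) : Prop :=
  ∀ i : Fin n, i.val ≠ 0 → ∀ z w : ℂ, z ^ m = 1 → w ^ m = 1 →
    {j | H i j = z}.ncard = {j | H i j = w}.ncard

def E : Matrix (Fin 16) (Fin 16) (Fin 4) :=
  !![0, 0, 0, 0, 0, 0, 0, 0, 0, 0, 0, 0, 0, 0, 0, 0;
     0, 0, 0, 0, 1, 1, 1, 1, 2, 2, 2, 2, 3, 3, 3, 3;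
     0, 3, 0, 2, 3, 2, 1, 1, 3, 1, 3, 0, 0, 2, 2, 1;
     0, 3, 1, 2, 1, 0, 2, 3, 2, 0, 2, 0, 1, 3, 1, 3;
     0, 2, 1, 0, 3, 3, 2, 0, 1, 1, 3, 2, 3, 0, 1, 2;
     0, 2, 3, 1, 0, 1, 2, 2, 0, 0, 3, 1, 2, 1, 3, 3;
     0, 3, 2, 3, 2, 0, 1, 2, 2, 3, 0, 1, 3, 1, 0, 1;
     0, 1, 1, 1, 2, 0, 0, 3, 3, 1, 0, 3, 2, 2, 3, 2;
     0, 0, 3, 1, 2, 2, 3, 1, 1, 3, 0, 0, 2, 3, 1, 2;
     0, 1, 2, 3, 1, 3, 2, 1, 0, 0, 1, 3, 3, 2, 2, 0;
     0, 1, 2, 2, 0, 1, 0, 3, 1, 3, 3, 2, 0, 3, 2, 1;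
     0, 0, 2, 3, 3, 2, 0, 2, 1, 1, 2, 3, 1, 1, 0, 3;
     0, 3, 3, 1, 2, 3, 1, 3, 0, 2, 1, 2, 1, 0, 2, 0;
     0, 2, 1, 0, 3, 2, 3, 0, 2, 3, 1, 1, 1, 2, 3, 0;
     0, 2, 0, 3, 0, 1, 3, 2, 3, 2, 1, 3, 2, 0, 1, 1;
     0, 1, 3, 2, 1, 3, 3, 0, 3, 2, 2, 1, 0, 1, 0, 2]

def u : Fin 4 → GaussianInt := ![1, ⟨0, 1⟩, -1, ⟨0, -1⟩]

lemma root {z : ℂ} (h : z ^ 4 = 1) : ∃ a, z = u a := by
  have : (z - 1) * (z - Complex.I) * (z + 1) * (z + Complex.I) = 0 := by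
    linear_combination h - (z ^ 2 - 1) * Complex.I_sq
  simp only [mul_eq_zero, sub_eq_zero, add_eq_zero_iff_eq_neg] at this
  rcases this with ((h | h) | h) | h
  · exact ⟨0, by simp [u, h]⟩
  · exact ⟨1, by simp [u, h, GaussianInt.toComplex_def]⟩
  · exact ⟨2, by simp [u, h]⟩
  · exact ⟨3, by simp [u, h, GaussianInt.toComplex_def]⟩

lemma pw (a : Fin 4) : (u a : ℂ) ^ 4 = 1 := by
  have : ∀ a, u a ^ 4 = 1 := by decide
  rw [← map_pow, this, map_one]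

lemma cnt (f : Fin 16 → GaussianInt) (a : GaussianInt) :
    {j | (f j : ℂ) = a}.ncard = (Finset.univ.filter fun j => f j = a).card := by
  rw [← Set.ncard_coe_finset]
  congr 1
  ext j
  simp

theorem result : ∃ (m n : ℕ) (H K : Matrix (Fin n) (Fin n) ℂ), 1 ≤ m ∧ 2 ≤ n ∧ Butson m H ∧
    Equivalent m H K ∧ Normalised H ∧ Normalised K ∧ RowBalanced m H ∧ RowBalanced m Hᵀ ∧
    ¬ RowBalanced m K := by
  refine ⟨4, 16, fun i j => u (E i j), fun i j => (u (-E 3 j) * u (E (Equiv.swap 0 3 i) j) : GaussianInt),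
    by norm_num, by norm_num, ⟨fun i j => pw _, ?_⟩,
    ⟨Equiv.swap 0 3, 1, fun _ => 1, fun j => u (-E 3 j), by simp, fun j => pw _, by simp⟩,
    fun i j h => ?_, fun i j h => ?_, fun i hi z w hz hw => ?_, fun i hi z w hz hw => ?_, fun h => ?_⟩
  · ext i j
    have : ∀ i j, ∑ k, u (E i k) * star (u (E j k)) = if i = j then 16 else 0 := by decide +kernel
    have := congrArg GaussianInt.toComplex (this i j)
    simp only [map_sum, map_mul, GaussianInt.toComplex_star] at this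
    simp only [mul_apply, conjTranspose_apply, Matrix.smul_apply, RCLike.star_def, this]
    split_ifs with h <;> simp [map_ofNat, Matrix.one_apply, h]
  · have : ∀ i j : Fin 16, i.val = 0 ∨ j.val = 0 → u (E i j) = 1 := by decide +kernel
    simp [this i j h]
  · have : ∀ i j : Fin 16, i.val = 0 ∨ j.val = 0 →
        u (-E 3 j) * u (E (Equiv.swap 0 3 i) j) = 1 := by decide +kernel
    simp only [this i j h, map_one]
  · obtain ⟨a, rfl⟩ := root hz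
    obtain ⟨b, rfl⟩ := root hw
    have : ∀ i : Fin 16, i.val ≠ 0 → ∀ a,
        (Finset.univ.filter fun j => u (E i j) = u a).card = 4 := by decide +kernel
    rw [cnt, cnt, this i hi, this i hi]
  · obtain ⟨a, rfl⟩ := root hz
    obtain ⟨b, rfl⟩ := root hw
    have : ∀ i : Fin 16, i.val ≠ 0 → ∀ a,
        (Finset.univ.filter fun j => u (E j i) = u a).card = 4 := by decide +kernel
    simp only [transpose_apply]
    rw [cnt, cnt, this i hi, this i hi]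
  · have := h 1 (by decide) _ _ (pw 0) (pw 1)
    rw [cnt, cnt] at this
    revert this
    decide +kernel

end Pool.Agent.Results.MP_812af1_co.Cex
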